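import Pool.Agent.QCC.Nil

/-!
# The deformation in power series
-/

open Finset PowerSeries

namespace QCC

/-- The power series `exp (a T)`. -/
noncomputable def E (a : ℂ) : PowerSeries ℂ := rescale a (PowerSeries.exp ℂ)

theorem E_add (a b : ℂ) : E (a + b) = E a * E b := (exp_mul_exp_eq_exp_add a b).symm

theorem E_zero : E 0 = 1 := by
  ext n
  rw [E, coeff_rescale, coeff_one]
  split_ifs with h
  · subst h; simp
  · simp [h]

theorem E_pow (a : ℂ) (k : ℕ) : E a ^ k = E (k * a) := by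
  induction k with
  | zero => simp [E_zero]
  | succ k ih =>
    rw [pow_succ, ih, ← E_add]
    congr 1
    push_cast
    ring

theorem coeff_E (a : ℂ) (m : ℕ) : coeff m (E a) = a ^ m * (1 / (m.factorial : ℂ)) := by
  rw [E, coeff_rescale, coeff_exp]
  simp

/-- Reduction modulo the cube of the variable. -/
noncomputable def pr : PowerSeries ℂ →+* PowerSeries ℂ ⧸ Ideal.span {(X : PowerSeries ℂ) ^ 3} :=
  Ideal.Quotient.mk _

/-- The constants in the quotient. -/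
noncomputable def cr : ℂ →+* PowerSeries ℂ ⧸ Ideal.span {(X : PowerSeries ℂ) ^ 3} :=
  pr.comp (C (R := ℂ))

theorem pr_cube : (pr X) ^ 3 = 0 := by
  rw [← map_pow, pr, Ideal.Quotient.eq_zero_iff_mem]
  exact Ideal.mem_span_singleton_self _

theorem pr_eq_zero {a : PowerSeries ℂ} (h : pr a = 0) : X ^ 3 ∣ a := by
  rw [pr, Ideal.Quotient.eq_zero_iff_mem, Ideal.mem_span_singleton] at h
  exact h

theorem nice_E (ν : ℂ) : Nice cr (pr X) fun y => pr (E (ν * y)) := by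
  refine ⟨1, cr ν, cr (ν ^ 2 / 2), fun y => ?_⟩
  simp only [cr, RingHom.comp_apply]
  have e0 : (1 : PowerSeries ℂ ⧸ Ideal.span {(X : PowerSeries ℂ) ^ 3}) +
      pr (C y) * pr X * pr (C ν) + pr (C y) ^ 2 * pr X ^ 2 * pr (C (ν ^ 2 / 2)) =
      pr (1 + C y * X * C ν + C y ^ 2 * X ^ 2 * C (ν ^ 2 / 2)) := by
    rw [map_add, map_add, map_one, map_mul, map_mul, map_mul, map_mul, map_pow, map_pow]
  rw [e0, pr, Ideal.Quotient.eq, Ideal.mem_span_singleton, X_pow_dvd_iff]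
  intro m hm
  have e1 : (1 : PowerSeries ℂ) + C y * X * C ν + C y ^ 2 * X ^ 2 * C (ν ^ 2 / 2) =
      C 1 * X ^ 0 + C (ν * y) * X ^ 1 + C ((ν * y) ^ 2 / 2) * X ^ 2 := by
    simp only [map_mul, map_one, pow_zero, pow_one]
    have : C (R := ℂ) ((ν * y) ^ 2 / 2) = C y ^ 2 * C (ν ^ 2 / 2) := by
      rw [← map_pow, ← map_mul]; congr 1; ring
    rw [this]
    ring
  rw [e1, map_sub, map_add, map_add, coeff_E, coeff_C_mul_X_pow, coeff_C_mul_X_pow,
    coeff_C_mul_X_pow]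
  interval_cases m <;> simp [Nat.factorial] <;> ring

theorem map_gg {R S : Type*} [CommRing R] [CommRing S] (f : R →+* S) (q p : R) (n k : ℕ) (u : R) :
    f (gg q p n k u) = gg (f q) (f p) n k (f u) := by
  simp [gg, map_prod]

/-- The base point. -/
noncomputable def qz (ζ : ℂ) : PowerSeries ℂ := C ζ * E 1

theorem qz_pow (ζ : ℂ) (m : ℕ) : qz ζ ^ m = C (ζ ^ m) * E m := by
  rw [qz, mul_pow, E_pow, mul_one, map_pow]

theorem qz_ne_zero {ζ : ℂ} (hζ : ζ ≠ 0) : qz ζ ≠ 0 := by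
  intro h
  have := congrArg (coeff 0) h
  rw [qz, coeff_C_mul, coeff_E] at this
  simp [hζ] at this

theorem qz_pow_ne_one {ζ : ℂ} (hζ : ζ ≠ 0) (m : ℕ) (hm : 0 < m) : qz ζ ^ m ≠ 1 := by
  intro h
  have := congrArg (coeff 1) h
  rw [qz_pow, coeff_C_mul, coeff_E, coeff_one] at this
  simp [hζ] at this
  omega

theorem cube_dvd {ζ : ℂ} (hζ : ζ ≠ 0) {d e l n : ℕ} (hζn : ζ ^ n = 1)
    (he : 1 ≤ e) (hl : 1 ≤ l) (hd : d = 2 * e + 3) (hn : n + 1 = d * l) :
    X ^ 3 ∣ ∑ k ∈ range n, (1 - qz ζ * (qz ζ ^ d) ^ (2 * k)) * (qz ζ ^ (d * e)) ^ k *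
      (gg (qz ζ) (qz ζ ^ d) n k 1) ^ d := by
  obtain ⟨s, hs⟩ : ∃ s : ℂ, s ^ 2 = -((2 * e + 2) ^ 2 + (e + 2) ^ 2 + 1 / 2 + (e - 1) / 2) / 2 :=
    IsAlgClosed.exists_pow_nat_eq _ (by norm_num)
  have hel : 1 ≤ (e + 2) * l := Nat.mul_pos (by omega) hl
  have hel2 : 1 ≤ (2 * e + 2) * l := Nat.mul_pos (by omega) hl
  obtain ⟨N, hN⟩ : ∃ N, N + 1 = (2 * e + 2) * l := ⟨(2 * e + 2) * l - 1, by omega⟩
  obtain ⟨m, hm⟩ : ∃ m, m + 1 = (e + 2) * l := ⟨(e + 2) * l - 1, by omega⟩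
  have hqn : qz ζ ^ n = E n := by rw [qz_pow, hζn, map_one, one_mul]
  -- exponents
  have hNn : 1 + d * N = n * (2 * e + 2) := by
    have h1 : d * N + d = d * ((2 * e + 2) * l) := by rw [← hN]; ring
    have h2 : n * (2 * e + 2) + (2 * e + 2) = d * ((2 * e + 2) * l) := by
      have : n * (2 * e + 2) + (2 * e + 2) = (n + 1) * (2 * e + 2) := by ring
      rw [this, hn]; ring
    omega
  have hmn : e + 1 + d * m = n * (e + 2) := by
    have h1 : d * m + d = d * ((e + 2) * l) := by rw [← hm]; ring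
    have h2 : n * (e + 2) + (e + 2) = d * ((e + 2) * l) := by
      have : n * (e + 2) + (e + 2) = (n + 1) * (e + 2) := by ring
      rw [this, hn]; ring
    omega
  have hu1 : qz ζ * (qz ζ ^ d) ^ N * E (n * (1 - d)) = 1 := by
    rw [← pow_mul, ← pow_succ', show d * N + 1 = n * (2 * e + 2) by omega, pow_mul, hqn, E_pow,
      ← E_add, ← E_zero]
    congr 1
    rw [hd]
    push_cast
    ring
  have hu2 : E (n * (e + 2)) = qz ζ ^ (e + 1) * (qz ζ ^ d) ^ m := by
    rw [← pow_mul, ← pow_add, hmn, pow_mul, hqn, E_pow]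
    congr 1
    push_cast
    ring
  have hv : ∀ s : ℂ, qz ζ * E (n * (1 / 2 + s)) * E (n * (1 / 2 - s)) = (qz ζ ^ d) ^ l := by
    intro s
    rw [mul_assoc, ← E_add, show (n : ℂ) * (1 / 2 + s) + n * (1 / 2 - s) = n by ring, ← hqn,
      ← pow_succ', hn, pow_mul]
  have hh : qz ζ * E (n * (1 / 2)) * E (n * (1 / 2)) = (qz ζ ^ d) ^ l := by
    have := hv 0
    rwa [add_zero, sub_zero] at this
  -- exact vanishing
  have hvan : ∑ k ∈ range n, (1 - qz ζ * (qz ζ ^ d) ^ (2 * k)) * (qz ζ ^ (d * e)) ^ k *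
      (gg (qz ζ) (qz ζ ^ d) n k 1 * gg (qz ζ) (qz ζ ^ d) n k (E (n * (1 - d))) *
        gg (qz ζ) (qz ζ ^ d) n k (E (n * (e + 2))) *
      (gg (qz ζ) (qz ζ ^ d) n k (E (n * (1 / 2 + s))) *
        gg (qz ζ) (qz ζ ^ d) n k (E (n * (1 / 2 - s)))) *
      (gg (qz ζ) (qz ζ ^ d) n k (E (n * (1 / 2))) *
        gg (qz ζ) (qz ζ ^ d) n k (E (n * (1 / 2)))) ^ (e - 1)) = 0 := by
    have hinj := IsFractionRing.injective (PowerSeries ℂ) (FractionRing (PowerSeries ℂ))
    apply hinj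
    set φ := algebraMap (PowerSeries ℂ) (FractionRing (PowerSeries ℂ)) with hφ
    have hq0 : φ (qz ζ) ≠ 0 := by
      rw [Ne, map_eq_zero_iff φ hinj]; exact qz_ne_zero hζ
    have hqr : ∀ m, 0 < m → φ (qz ζ) ^ m ≠ 1 := by
      intro m hm h
      rw [← map_pow, ← map_one φ] at h
      exact qz_pow_ne_one hζ m hm (hinj h)
    have hV := vanish hq0 hqr he hl hd hn hN hm (u1 := φ (E (n * (1 - d))))
      (u2 := φ (E (n * (e + 2)))) (v := φ (E (n * (1 / 2 + s)))) (v' := φ (E (n * (1 / 2 - s))))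
      (h := φ (E (n * (1 / 2))))
      (by rw [← map_pow, ← map_pow, ← map_mul, ← map_mul, hu1, map_one])
      (by rw [hu2, map_mul, map_pow, map_pow, map_pow])
      (by rw [← map_mul, ← map_mul, hv s, map_pow, map_pow])
      (by rw [← map_mul, ← map_mul, hh, map_pow, map_pow])
    rw [map_zero, map_sum, ← hV]
    refine Finset.sum_congr rfl fun k _ => ?_
    simp only [term, map_mul, map_sub, map_one, map_pow, map_gg]
  -- reduction
  apply pr_eq_zero
  rw [map_sum, ← map_zero pr, ← hvan, map_sum]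
  refine Finset.sum_congr rfl fun k _ => ?_
  rw [map_mul, map_mul pr _ (_ * _ * _ * (_ * _) * (_ * _) ^ (e - 1))]
  congr 1
  set F : ℂ → PowerSeries ℂ ⧸ Ideal.span {(X : PowerSeries ℂ) ^ 3} :=
    fun y => gg (pr (qz ζ)) (pr (qz ζ ^ d)) n k (pr (E (n * y))) with hF
  have hNice : Nice cr (pr X) F := Nice.gg pr_cube _ _ n k (nice_E n)
  have hlen : ([0, 1 - (d : ℂ), (e : ℂ) + 2, 1 / 2 + s, 1 / 2 - s] ++
      List.replicate (2 * (e - 1)) (1 / 2 : ℂ)).length = (d - 2) + 2 := by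
    simp only [List.length_append, List.length_cons, List.length_nil, List.length_replicate]
    omega
  have hec : ((2 * (e - 1) : ℕ) : ℂ) = 2 * ((e : ℂ) - 1) := by
    push_cast [Nat.cast_sub he]
    ring
  have hdc : (d : ℂ) = 2 * e + 3 := by rw [hd]; push_cast; ring
  have hsum : ([0, 1 - (d : ℂ), (e : ℂ) + 2, 1 / 2 + s, 1 / 2 - s] ++
      List.replicate (2 * (e - 1)) (1 / 2 : ℂ)).sum = 0 := by
    simp only [List.sum_append, List.sum_cons, List.sum_nil, List.sum_replicate, nsmul_eq_mul]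
    rw [hec, hdc]
    ring
  have hsq : (([0, 1 - (d : ℂ), (e : ℂ) + 2, 1 / 2 + s, 1 / 2 - s] ++
      List.replicate (2 * (e - 1)) (1 / 2 : ℂ)).map (· ^ 2)).sum = 0 := by
    simp only [List.map_append, List.map_cons, List.map_nil, List.map_replicate, List.sum_append,
      List.sum_cons, List.sum_nil, List.sum_replicate, nsmul_eq_mul]
    rw [hec, hdc]
    linear_combination 2 * hs
  have hprod := list_prod_nice cr pr_cube hNice hlen hsum hsq
  have hF0 : F 0 = gg (pr (qz ζ)) (pr (qz ζ ^ d)) n k 1 := by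
    rw [hF]
    simp only [mul_zero, E_zero, map_one]
  rw [map_pow, map_gg, map_one]
  rw [show d - 2 + 2 = d by omega, hF0] at hprod
  rw [← hprod]
  simp only [List.map_append, List.map_cons, List.map_nil, List.map_replicate, List.prod_append,
      List.prod_cons, List.prod_nil, List.prod_replicate, hF0]
  simp only [hF, map_mul, map_pow, map_gg, map_one]
  rw [pow_mul, ← pow_two]
  ring

end QCC
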