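import Pool.Agent.QCC.Exps

/-!
# Divisibility by the cube of the cyclotomic polynomial
-/

open Finset Polynomial

namespace QCC

/-- The numerator polynomial. -/
noncomputable def PP (d n : ℕ) : ℤ[X] :=
  ∑ k ∈ range n, (1 - X ^ (2 * d * k + 1)) *
    ((∏ j ∈ range k, (1 - X * (X ^ d) ^ j)) * ∏ j ∈ Ico (k + 1) n, (1 - (X ^ d) ^ j)) ^ d *
    X ^ (d * (d - 3) * k / 2)

theorem aeval_PP {d e n : ℕ} (hd : d = 2 * e + 3) (ζ : ℂ) :
    aeval (qz ζ) (PP d n) = ∑ k ∈ range n, (1 - qz ζ * (qz ζ ^ d) ^ (2 * k)) *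
      (qz ζ ^ (d * e)) ^ k * (gg (qz ζ) (qz ζ ^ d) n k 1) ^ d := by
  rw [PP, map_sum]
  refine Finset.sum_congr rfl fun k _ => ?_
  have h1 : d * (d - 3) * k / 2 = d * e * k := by
    have : d * (d - 3) * k = 2 * (d * e * k) := by
      rw [show d - 3 = 2 * e by omega]; ring
    rw [this, Nat.mul_div_cancel_left _ (by norm_num)]
  rw [h1, gg]
  simp only [map_mul, map_sub, map_one, map_pow, map_prod, aeval_X, mul_one]
  rw [← pow_mul (qz ζ) d (2 * k), ← pow_mul (qz ζ) (d * e) k, ← pow_succ',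
    show 2 * d * k + 1 = d * (2 * k) + 1 by ring]
  ring

theorem constCoeff_aeval (ζ : ℂ) (Q : ℂ[X]) :
    PowerSeries.constantCoeff (aeval (qz ζ) Q) = Q.eval ζ := by
  have h : PowerSeries.constantCoeff (R := ℂ) (qz ζ) = ζ := by
    rw [← PowerSeries.coeff_zero_eq_constantCoeff_apply, qz, PowerSeries.coeff_C_mul, coeff_E]
    simp
  rw [aeval_def, ← Polynomial.eval₂_id (p := Q) (x := ζ), hom_eval₂, h]
  congr 1

theorem qz_sub (ζ : ℂ) : ∃ U : PowerSeries ℂ, qz ζ - PowerSeries.C ζ = PowerSeries.X * U ∧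
    PowerSeries.constantCoeff U = ζ := by
  have h1 : PowerSeries.X ∣ qz ζ - PowerSeries.C ζ := by
    rw [PowerSeries.X_dvd_iff, ← PowerSeries.coeff_zero_eq_constantCoeff_apply, map_sub, qz,
      PowerSeries.coeff_C_mul, coeff_E]
    simp
  obtain ⟨U, hU⟩ := h1
  refine ⟨U, hU, ?_⟩
  have h2 := congrArg (PowerSeries.coeff 1) hU
  rw [show (1 : ℕ) = 0 + 1 by rfl, PowerSeries.coeff_succ_X_mul, map_sub, qz,
    PowerSeries.coeff_C_mul, coeff_E, PowerSeries.coeff_C] at h2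
  rw [← PowerSeries.coeff_zero_eq_constantCoeff_apply, ← h2]
  simp

theorem cube_of_series {ζ : ℂ} (hζ : ζ ≠ 0) (P : ℂ[X])
    (h : (PowerSeries.X : PowerSeries ℂ) ^ 3 ∣ aeval (qz ζ) P) : (X - C ζ) ^ 3 ∣ P := by
  by_cases hP : P = 0
  · subst hP; exact dvd_zero _
  obtain ⟨Q, hQ, hQ'⟩ := exists_eq_pow_rootMultiplicity_mul_and_not_dvd P hP ζ
  by_cases hr : 3 ≤ P.rootMultiplicity ζ
  · rw [hQ]
    exact (pow_dvd_pow _ hr).trans (dvd_mul_right _ _)
  · exfalso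
    rw [dvd_iff_isRoot, IsRoot.def] at hQ'
    generalize P.rootMultiplicity ζ = r at *
    obtain ⟨U, hU, hU0⟩ := qz_sub ζ
    rw [hQ, map_mul, map_pow, map_sub, aeval_X, aeval_C] at h
    have h0 : (algebraMap ℂ (PowerSeries ℂ)) ζ = PowerSeries.C ζ := rfl
    rw [h0, hU, mul_pow, mul_assoc] at h
    have h1 : (PowerSeries.X : PowerSeries ℂ) ^ 3 = PowerSeries.X ^ r * PowerSeries.X ^ (3 - r) := by
      rw [← pow_add]; congr 1; omega
    rw [h1] at h
    have h2 := (mul_dvd_mul_iff_left (pow_ne_zero r PowerSeries.X_ne_zero)).mp h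
    have h3 : (PowerSeries.X : PowerSeries ℂ) ∣ U ^ r * aeval (qz ζ) Q :=
      (dvd_pow_self _ (by omega : 3 - r ≠ 0)).trans h2
    rw [PowerSeries.X_dvd_iff, map_mul, map_pow, hU0, constCoeff_aeval] at h3
    rcases mul_eq_zero.mp h3 with h4 | h4
    · exact hζ (eq_zero_of_pow_eq_zero h4)
    · exact hQ' h4

theorem cyclotomic_cube_dvd {d e l n : ℕ} (he : 1 ≤ e) (hl : 1 ≤ l) (hd : d = 2 * e + 3)
    (hn : n + 1 = d * l) : cyclotomic n ℤ ^ 3 ∣ PP d n := by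
  have hn0 : 0 < n := by
    have : d * 1 ≤ d * l := Nat.mul_le_mul_left d hl
    omega
  rw [← Polynomial.map_dvd_map (Int.castRingHom ℂ) (RingHom.injective_int _)
    ((cyclotomic.monic n ℤ).pow 3), Polynomial.map_pow, map_cyclotomic]
  have hprim := Complex.isPrimitiveRoot_exp n hn0.ne'
  rw [cyclotomic_eq_prod_X_sub_primitiveRoots hprim, ← Finset.prod_pow]
  refine Finset.prod_dvd_of_coprime ?_ fun μ hμ => ?_
  · intro a _ b _ hab
    exact (isCoprime_X_sub_C_of_isUnit_sub (sub_ne_zero.mpr hab).isUnit).pow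
  · rw [mem_primitiveRoots hn0] at hμ
    have hμ0 : μ ≠ 0 := hμ.ne_zero hn0.ne'
    refine cube_of_series hμ0 _ ?_
    have h := cube_dvd hμ0 hμ.pow_eq_one he hl hd hn
    rw [← aeval_PP hd] at h
    rwa [show aeval (qz μ) ((PP d n).map (Int.castRingHom ℂ)) = aeval (qz μ) (PP d n) by
      rw [aeval_def, eval₂_map, aeval_def]
      congr 1
      exact RingHom.ext_int _ _]

/-- The denominator polynomial. -/
noncomputable def DD (d n : ℕ) : ℤ[X] := (1 - X) * (∏ j ∈ Ico 1 n, (1 - (X ^ d) ^ j)) ^ d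

theorem not_dvd_DD {d n : ℕ} (hn : 2 ≤ n) (hc : Nat.Coprime n d) : ¬ cyclotomic n ℤ ∣ DD d n := by
  intro h
  have hprim := Complex.isPrimitiveRoot_exp n (by omega)
  set ζ := Complex.exp (2 * Real.pi * Complex.I / n) with hζ
  have h1 : aeval ζ (cyclotomic n ℤ) ∣ aeval ζ (DD d n) := map_dvd (aeval ζ) h
  have h2 : aeval ζ (cyclotomic n ℤ) = 0 := by
    rw [aeval_def, ← eval_map, map_cyclotomic]
    exact hprim.isRoot_cyclotomic (by omega)
  rw [h2, zero_dvd_iff, DD] at h1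
  simp only [map_mul, map_sub, map_one, map_pow, map_prod, aeval_X] at h1
  rcases mul_eq_zero.mp h1 with h3 | h3
  · have : ζ ^ 1 = 1 := by rw [pow_one]; exact (sub_eq_zero.mp h3).symm
    have h4 := hprim.dvd_of_pow_eq_one 1 this
    have := Nat.le_of_dvd one_pos h4
    omega
  · have h4 := eq_zero_of_pow_eq_zero h3
    rw [Finset.prod_eq_zero_iff] at h4
    obtain ⟨j, hj, hj'⟩ := h4
    rw [Finset.mem_Ico] at hj
    rw [← pow_mul] at hj'
    have h5 := hprim.dvd_of_pow_eq_one (d * j) (sub_eq_zero.mp hj').symm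
    have h6 := hc.dvd_of_dvd_mul_left h5
    have := Nat.le_of_dvd (by omega) h6
    omega

theorem sum_eq {F : Type*} [Field F] (q : F) (hq : ∀ m, 0 < m → q ^ m ≠ 1) {d n : ℕ} (hd : 0 < d) :
    (∑ k ∈ range n, (1 - q ^ (2 * d * k + 1)) / (1 - q) *
      ((∏ j ∈ range k, (1 - q * (q ^ d) ^ j)) / ∏ j ∈ range k, (1 - q ^ d * (q ^ d) ^ j)) ^ d *
      q ^ (d * (d - 3) * k / 2)) * ((1 - q) * (∏ j ∈ Ico 1 n, (1 - (q ^ d) ^ j)) ^ d) =
    ∑ k ∈ range n, (1 - q ^ (2 * d * k + 1)) *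
    ((∏ j ∈ range k, (1 - q * (q ^ d) ^ j)) * ∏ j ∈ Ico (k + 1) n, (1 - (q ^ d) ^ j)) ^ d *
    q ^ (d * (d - 3) * k / 2) := by
  rw [Finset.sum_mul]
  refine Finset.sum_congr rfl fun k hk => ?_
  rw [Finset.mem_range] at hk
  have h1 : (1 : F) - q ≠ 0 := by
    intro h
    exact hq 1 one_pos (by rw [pow_one]; exact (sub_eq_zero.mp h).symm)
  have h2 : ∏ j ∈ range k, (1 - q ^ d * (q ^ d) ^ j) ≠ 0 := by
    refine Finset.prod_ne_zero_iff.mpr fun j _ h => ?_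
    rw [← pow_succ', ← pow_mul] at h
    exact hq (d * (j + 1)) (by positivity) (sub_eq_zero.mp h).symm
  have h3 : ∏ j ∈ Ico 1 n, (1 - (q ^ d) ^ j) = (∏ j ∈ range k, (1 - q ^ d * (q ^ d) ^ j)) *
      ∏ j ∈ Ico (k + 1) n, (1 - (q ^ d) ^ j) := by
    rw [← Finset.prod_Ico_consecutive (fun j => (1 : F) - (q ^ d) ^ j) (m := 1) (n := k + 1)
      (k := n) (by omega) (by omega), Finset.prod_Ico_eq_prod_range _ 1 (k + 1)]
    congr 1
    refine Finset.prod_congr (by simp) fun j _ => ?_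
    rw [pow_add, pow_one]
  rw [h3]
  generalize (∏ j ∈ range k, (1 - q ^ d * (q ^ d) ^ j)) = A at *
  generalize (∏ j ∈ range k, (1 - q * (q ^ d) ^ j)) = B at *
  generalize (∏ j ∈ Ico (k + 1) n, (1 - (q ^ d) ^ j)) = G at *
  have h4 : A ^ d ≠ 0 := pow_ne_zero _ h2
  rw [div_pow, mul_pow, mul_pow]
  field_simp

end QCC
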