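import Mathlib

/-!
# An exact vanishing sum by Lagrange interpolation

`K` is a field, `q` is nonzero and not a root of unity, `p = q ^ d`, `d = 2 e + 3`, `n = d l - 1`.
-/

open Polynomial Finset

namespace QCC

variable {K : Type*} [CommRing K]

/-- The factor `prod_{j<k} (1 - q p^j u) * prod_{k<j<n} (u - p^j)`. -/
def gg (q p : K) (n k : ℕ) (u : K) : K :=
  (∏ j ∈ range k, (1 - q * p ^ j * u)) * ∏ j ∈ Ico (k + 1) n, (u - p ^ j)

theorem prod_swap (F : ℕ → K) {k l n : ℕ} (hl : 1 ≤ l) (h : k + l ≤ n) :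
    (∏ j ∈ Ico l (l + k), F j) * ∏ j ∈ Ico (k + 1) n, F j =
      (∏ j ∈ Ico l n, F j) * ∏ j ∈ Ico (k + 1) (k + l), F j := by
  rw [← Finset.prod_Ico_consecutive F (m := l) (n := l + k) (k := n) (by omega) (by omega),
    ← Finset.prod_Ico_consecutive F (m := k + 1) (n := k + l) (k := n) (by omega) (by omega),
    add_comm l k]
  ring

end QCC

namespace QCC

variable {K : Type*} [Field K]

/-- The nodes. -/
def ww (q p : K) (k : ℕ) : K := p ^ k + (q * p ^ k)⁻¹

theorem gg_pair (q p : K) (hq : q ≠ 0) (hp : p ≠ 0) (n l : ℕ) (hl : 1 ≤ l) (u u' : K)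
    (hu : q * u * u' = p ^ l) :
    ∃ Q : K[X], Q.natDegree ≤ l - 1 ∧ ∀ k, k + l ≤ n →
      p ^ k * (gg q p n k u * gg q p n k u') = q ^ k * Q.eval (ww q p k) := by
  have hu0 : u ≠ 0 := by
    rintro rfl
    simp only [mul_zero, zero_mul] at hu
    exact pow_ne_zero _ hp hu.symm
  have hu0' : u' ≠ 0 := by
    rintro rfl
    simp only [mul_zero] at hu
    exact pow_ne_zero _ hp hu.symm
  have hqu : q * u ≠ 0 := mul_ne_zero hq hu0
  set F : ℕ → K := fun j => u - p ^ j with hF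
  set H : ℕ → K := fun j => p ^ l - q * u * p ^ j with hH
  refine ⟨C (((q * u) ^ (n - 1))⁻¹ * ((∏ j ∈ Ico l n, F j) * ∏ j ∈ Ico l n, H j)) *
    ∏ t ∈ Ico 1 l, (C (p ^ (l - t) * (q * u * p ^ t)) * X - C (p ^ (l - t) * (q * u ^ 2 + p ^ (2 * t)))),
    ?_, fun k hk => ?_⟩
  · refine (natDegree_C_mul_le _ _).trans ?_
    refine (natDegree_prod_le _ _).trans ?_
    refine (Finset.sum_le_card_nsmul _ _ 1 fun t _ => ?_).trans (by simp)
    refine (natDegree_sub_le _ _).trans ?_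
    rw [natDegree_C, max_eq_left (Nat.zero_le _)]
    exact (natDegree_C_mul_le _ _).trans natDegree_X_le
  · -- first group
    have e1 : ∏ j ∈ range k, (1 - q * p ^ j * u') = (u ^ k)⁻¹ * ∏ j ∈ Ico l (l + k), F j := by
      rw [Finset.prod_Ico_eq_prod_range, Nat.add_sub_cancel_left]
      rw [eq_inv_mul_iff_mul_eq₀ (pow_ne_zero _ hu0)]
      have : u ^ k = ∏ j ∈ range k, u := by simp
      rw [this, ← Finset.prod_mul_distrib]
      refine Finset.prod_congr rfl fun j _ => ?_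
      simp only [hF, pow_add, ← hu]
      ring
    have e2 : ∏ j ∈ range k, (1 - q * p ^ j * u) = (p ^ (l * k))⁻¹ * ∏ j ∈ Ico l (l + k), H j := by
      rw [Finset.prod_Ico_eq_prod_range, Nat.add_sub_cancel_left]
      rw [eq_inv_mul_iff_mul_eq₀ (pow_ne_zero _ hp)]
      have : p ^ (l * k) = ∏ j ∈ range k, p ^ l := by simp [pow_mul]
      rw [this, ← Finset.prod_mul_distrib]
      refine Finset.prod_congr rfl fun j _ => ?_
      simp only [hH, pow_add]
      ring
    have e3 : ∏ j ∈ Ico (k + 1) n, (u' - p ^ j) =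
        ((q * u) ^ (n - 1 - k))⁻¹ * ∏ j ∈ Ico (k + 1) n, H j := by
      rw [eq_inv_mul_iff_mul_eq₀ (pow_ne_zero _ hqu)]
      have : (q * u) ^ (n - 1 - k) = ∏ j ∈ Ico (k + 1) n, (q * u) := by
        rw [Finset.prod_const, Nat.card_Ico]
        congr 1
        omega
      rw [this, ← Finset.prod_mul_distrib]
      refine Finset.prod_congr rfl fun j _ => ?_
      simp only [hH, ← hu]
      ring
    have e4 : (∏ j ∈ Ico (k + 1) (k + l), F j) * ∏ j ∈ Ico (k + 1) (k + l), H j =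
        (p ^ k) ^ (l - 1) * ∏ t ∈ Ico 1 l,
          (p ^ (l - t) * (q * u * p ^ t) * ww q p k - p ^ (l - t) * (q * u ^ 2 + p ^ (2 * t))) := by
      have r1 : ∏ j ∈ Ico (k + 1) (k + l), F j = ∏ t ∈ Ico 1 l, F (k + t) := by
        rw [Finset.prod_Ico_add F 1 l k]
        congr 1
        rw [add_comm 1 k, add_comm l k]
      have r2 : ∏ j ∈ Ico (k + 1) (k + l), H j = ∏ t ∈ Ico 1 l, H (k + (l - t)) := by
        have := Finset.prod_Ico_reflect (fun t => H (k + t)) 1 (m := l) (n := l) (by omega)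
        simp only [Nat.add_sub_cancel] at this
        rw [show l + 1 - l = 1 by omega] at this
        rw [this, Finset.prod_Ico_add H 1 l k]
        congr 1
        rw [add_comm 1 k, add_comm l k]
      rw [r1, r2, ← Finset.prod_mul_distrib]
      have : (p ^ k) ^ (l - 1) = ∏ t ∈ Ico 1 l, p ^ k := by
        rw [Finset.prod_const, Nat.card_Ico]
      rw [this, ← Finset.prod_mul_distrib]
      refine Finset.prod_congr rfl fun t ht => ?_
      rw [Finset.mem_Ico] at ht
      simp only [hF, hH, ww]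
      have hl' : p ^ l = p ^ (l - t) * p ^ t := by rw [← pow_add]; congr 1; omega
      have h2 : p ^ (2 * t) = p ^ t * p ^ t := by rw [← pow_add]; congr 1; omega
      rw [hl', h2, pow_add, pow_add]
      have hpk : p ^ k ≠ 0 := pow_ne_zero _ hp
      field_simp
      ring
    rw [eval_mul, eval_C, eval_prod]
    simp only [eval_sub, eval_mul, eval_C, eval_X]
    have hs1 := prod_swap F hl hk
    have hs2 := prod_swap H hl hk
    have e5 : p ^ k * (gg q p n k u * gg q p n k u') =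
        p ^ k * ((u ^ k)⁻¹ * (p ^ (l * k))⁻¹ * ((q * u) ^ (n - 1 - k))⁻¹ *
        (((∏ j ∈ Ico l n, F j) * ∏ j ∈ Ico (k + 1) (k + l), F j) *
        ((∏ j ∈ Ico l n, H j) * ∏ j ∈ Ico (k + 1) (k + l), H j))) := by
      rw [← hs1, ← hs2, gg, gg, e1, e2, e3]
      simp only [hF]
      ring
    rw [e5]
    have e6 : ((∏ j ∈ Ico l n, F j) * ∏ j ∈ Ico (k + 1) (k + l), F j) *
        ((∏ j ∈ Ico l n, H j) * ∏ j ∈ Ico (k + 1) (k + l), H j) =
        ((∏ j ∈ Ico l n, F j) * ∏ j ∈ Ico l n, H j) *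
        ((∏ j ∈ Ico (k + 1) (k + l), F j) * ∏ j ∈ Ico (k + 1) (k + l), H j) := by ring
    rw [e6, e4]
    have e7 : (q * u) ^ (n - 1) = (q * u) ^ (n - 1 - k) * (q * u) ^ k := by
      rw [← pow_add]; congr 1; omega
    have e8 : p ^ (l * k) = (p ^ k) ^ (l - 1) * p ^ k := by
      rw [← pow_succ, Nat.sub_add_cancel hl, ← pow_mul, mul_comm]
    rw [e7, e8]
    generalize (∏ t ∈ Ico 1 l, (p ^ (l - t) * (q * u * p ^ t) * ww q p k -
      p ^ (l - t) * (q * u ^ 2 + p ^ (2 * t)))) = Z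
    generalize (∏ j ∈ Ico l n, F j) * ∏ j ∈ Ico l n, H j = Y
    have h1 : (q * u) ^ (n - 1 - k) ≠ 0 := pow_ne_zero _ hqu
    have h2 : (p ^ k) ^ (l - 1) ≠ 0 := pow_ne_zero _ (pow_ne_zero _ hp)
    have h3 : p ^ k ≠ 0 := pow_ne_zero _ hp
    have h4 : q ^ k ≠ 0 := pow_ne_zero _ hq
    have h5 : u ^ k ≠ 0 := pow_ne_zero _ hu0
    rw [mul_pow q u k]
    generalize (q * u) ^ (n - 1 - k) = a1 at *
    generalize (p ^ k) ^ (l - 1) = a2 at *
    field_simp

theorem gg_single (q p : K) (hq : q ≠ 0) (hp : p ≠ 0) (n m : ℕ) (hn : n ≤ 2 * m + 1) (u : K)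
    (hu : q * u * u = p ^ (2 * m + 1)) (hne : ∀ j, u ≠ p ^ j) :
    ∃ Q : K[X], Q.natDegree ≤ m ∧ ∀ k, k < n →
      u ^ k * gg q p n k u = (p ^ m) ^ k * Q.eval (ww q p k) := by
  have hu0 : u ≠ 0 := by
    rintro rfl
    simp only [mul_zero] at hu
    exact pow_ne_zero _ hp hu.symm
  set F : ℕ → K := fun j => u - p ^ j with hF
  have hκ : ∏ j ∈ Ico n (2 * m + 1), F j ≠ 0 :=
    Finset.prod_ne_zero_iff.mpr fun j _ => sub_ne_zero.mpr (hne j)
  refine ⟨C ((∏ j ∈ Ico n (2 * m + 1), F j)⁻¹) *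
    ∏ t ∈ range m, (C (p ^ (2 * m + 1)) * X - C (u * (p ^ (t + 1) + p ^ (2 * m - t)))),
    ?_, fun k hk => ?_⟩
  · refine (natDegree_C_mul_le _ _).trans ?_
    refine (natDegree_prod_le _ _).trans ?_
    refine (Finset.sum_le_card_nsmul _ _ 1 fun t _ => ?_).trans (by simp)
    refine (natDegree_sub_le _ _).trans ?_
    rw [natDegree_C, max_eq_left (Nat.zero_le _)]
    exact (natDegree_C_mul_le _ _).trans natDegree_X_le
  · have e1 : u ^ k * ∏ j ∈ range k, (1 - q * p ^ j * u) =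
        ∏ j ∈ Ico (2 * m + 1) (2 * m + 1 + k), F j := by
      rw [Finset.prod_Ico_eq_prod_range, Nat.add_sub_cancel_left]
      have : u ^ k = ∏ j ∈ range k, u := by simp
      rw [this, ← Finset.prod_mul_distrib]
      refine Finset.prod_congr rfl fun j _ => ?_
      simp only [hF, pow_add _ (2 * m + 1) j, ← hu]
      ring
    have e2 : (∏ j ∈ Ico n (2 * m + 1), F j) * (u ^ k * gg q p n k u) =
        ∏ j ∈ Ico (k + 1) (2 * m + 1 + k), F j := by
      rw [gg, ← mul_assoc (u ^ k), e1,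
        ← Finset.prod_Ico_consecutive F (m := k + 1) (n := n) (k := 2 * m + 1 + k)
          (by omega) (by omega),
        ← Finset.prod_Ico_consecutive F (m := n) (n := 2 * m + 1) (k := 2 * m + 1 + k)
          (by omega) (by omega)]
      ring
    have e3 : ∏ j ∈ Ico (k + 1) (2 * m + 1 + k), F j =
        (p ^ k) ^ m * ∏ t ∈ range m, (p ^ (2 * m + 1) * ww q p k - u * (p ^ (t + 1) + p ^ (2 * m - t))) := by
      have s1 : ∏ j ∈ Ico (k + 1) (2 * m + 1 + k), F j = ∏ t ∈ range (m + m), F (k + 1 + t) := by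
        rw [Finset.prod_Ico_eq_prod_range]
        congr 2
        omega
      rw [s1, Finset.prod_range_add, ← Finset.prod_range_reflect (fun t => F (k + 1 + (m + t))),
        ← Finset.prod_mul_distrib]
      have : (p ^ k) ^ m = ∏ t ∈ range m, p ^ k := by simp
      rw [this, ← Finset.prod_mul_distrib]
      refine Finset.prod_congr rfl fun t ht => ?_
      rw [Finset.mem_range] at ht
      simp only [hF, ww]
      have h1 : p ^ (k + 1 + t) = p ^ k * p ^ (t + 1) := by rw [← pow_add]; congr 1; omega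
      have h2 : p ^ (k + 1 + (m + (m - 1 - t))) = p ^ k * p ^ (2 * m - t) := by
        rw [← pow_add]; congr 1; omega
      have h3 : p ^ (2 * m + 1) = p ^ (t + 1) * p ^ (2 * m - t) := by
        rw [← pow_add]; congr 1; omega
      have hpk : p ^ k ≠ 0 := pow_ne_zero _ hp
      rw [h1, h2]
      have h4 : p ^ (2 * m + 1) * (p ^ k + (q * p ^ k)⁻¹) =
          p ^ (t + 1) * p ^ (2 * m - t) * p ^ k + u * u * (p ^ k)⁻¹ := by
        rw [mul_add, ← h3, mul_inv]
        nth_rewrite 2 [← hu]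
        field_simp
      rw [h4]
      field_simp
      ring
    rw [eval_mul, eval_C, eval_prod]
    simp only [eval_sub, eval_mul, eval_C, eval_X]
    have e4 : u ^ k * gg q p n k u = (∏ j ∈ Ico n (2 * m + 1), F j)⁻¹ *
        ((p ^ k) ^ m * ∏ t ∈ range m,
          (p ^ (2 * m + 1) * ww q p k - u * (p ^ (t + 1) + p ^ (2 * m - t)))) := by
      rw [← e3, ← e2, inv_mul_cancel_left₀ hκ]
    rw [e4, ← pow_mul, ← pow_mul, mul_comm m k]
    ring

end QCC
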