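import Pool.Agent.QCC.Van

/-!
# Expansion to second order
-/

open Finset

namespace QCC

variable {R : Type*} [CommRing R]

/-- Functions of the form `α + β y x + γ (y x)^2`. -/
def Nice (c : ℂ →+* R) (x : R) (F : ℂ → R) : Prop :=
  ∃ α β γ : R, ∀ y, F y = α + c y * x * β + c y ^ 2 * x ^ 2 * γ

theorem Nice.const (c : ℂ →+* R) (x a : R) : Nice c x fun _ => a :=
  ⟨a, 0, 0, fun y => by ring⟩

theorem Nice.sub {c : ℂ →+* R} {x : R} {F G : ℂ → R} (hF : Nice c x F) (hG : Nice c x G) :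
    Nice c x fun y => F y - G y := by
  obtain ⟨a, b, g, h⟩ := hF
  obtain ⟨a', b', g', h'⟩ := hG
  exact ⟨a - a', b - b', g - g', fun y => by simp only [h y, h' y]; ring⟩

theorem Nice.mul {c : ℂ →+* R} {x : R} (hx : x ^ 3 = 0) {F G : ℂ → R} (hF : Nice c x F)
    (hG : Nice c x G) : Nice c x fun y => F y * G y := by
  obtain ⟨a, b, g, h⟩ := hF
  obtain ⟨a', b', g', h'⟩ := hG
  refine ⟨a * a', a * b' + b * a', a * g' + b * b' + g * a', fun y => ?_⟩
  simp only [h y, h' y]
  linear_combination (c y ^ 3 * (b * g' + g * b') + c y ^ 4 * x * (g * g')) * hx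

theorem Nice.prod {c : ℂ →+* R} {x : R} (hx : x ^ 3 = 0) {ι : Type*} (s : Finset ι)
    (F : ι → ℂ → R) (h : ∀ i ∈ s, Nice c x (F i)) : Nice c x fun y => ∏ i ∈ s, F i y := by
  classical
  induction s using Finset.induction_on with
  | empty => simpa using Nice.const c x 1
  | insert a s ha ih =>
    have h1 := (h a (Finset.mem_insert_self a s)).mul hx
      (ih fun i hi => h i (Finset.mem_insert_of_mem hi))
    refine (congrArg (Nice c x) ?_).mp h1
    funext y
    rw [Finset.prod_insert ha]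

theorem Nice.gg {c : ℂ →+* R} {x : R} (hx : x ^ 3 = 0) (q p : R) (n k : ℕ) {u : ℂ → R}
    (hu : Nice c x u) : Nice c x fun y => gg q p n k (u y) := by
  unfold QCC.gg
  refine Nice.mul hx (Nice.prod hx _ _ fun j _ => ?_) (Nice.prod hx _ _ fun j _ => ?_)
  · exact (Nice.const c x 1).sub ((Nice.const c x _).mul hx hu)
  · exact hu.sub (Nice.const c x _)

theorem list_prod (c : ℂ →+* R) {x : R} (hx : x ^ 3 = 0) (F : ℂ → R) (α β γ t : R)
    (ht : 2 * t = 1) (hF : ∀ y, F y = α + c y * x * β + c y ^ 2 * x ^ 2 * γ) :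
    ∀ (r : ℕ) (L : List ℂ), L.length = r + 2 → (L.map F).prod =
      α ^ (r + 2) + β * α ^ (r + 1) * x * c L.sum +
      (γ * α ^ (r + 1) - t * β ^ 2 * α ^ r) * x ^ 2 * c (L.map (· ^ 2)).sum +
      t * β ^ 2 * α ^ r * x ^ 2 * c L.sum ^ 2 := by
  intro r
  induction r with
  | zero =>
    intro L hL
    match L, hL with
    | [a, b], _ =>
      simp only [List.map_cons, List.map_nil, List.prod_cons, List.prod_nil, List.sum_cons,
        List.sum_nil, add_zero, map_add, map_pow, hF]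
      linear_combination (-(β ^ 2 * c a * c b * x ^ 2)) * ht +
        (c a * β * c b ^ 2 * γ + c b * β * c a ^ 2 * γ + c a ^ 2 * c b ^ 2 * x * γ ^ 2) * hx
  | succ r ih =>
    intro L hL
    match L, hL with
    | a :: L, hL =>
      have hL' : L.length = r + 2 := by simpa using hL
      have h1 := ih L hL'
      simp only [List.map_cons, List.prod_cons, List.sum_cons, map_add, map_pow]
      rw [h1, hF a]
      generalize c L.sum = s1 at *
      generalize c (L.map (· ^ 2)).sum = s2 at *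
      linear_combination (-(β ^ 2 * α ^ (r + 1) * c a * s1 * x ^ 2)) * ht +
        (c a * β * ((γ * α ^ (r + 1) - t * β ^ 2 * α ^ r) * s2 + t * β ^ 2 * α ^ r * s1 ^ 2) +
          c a ^ 2 * γ * (β * α ^ (r + 1) * s1 +
          (γ * α ^ (r + 1) - t * β ^ 2 * α ^ r) * x * s2 + t * β ^ 2 * α ^ r * x * s1 ^ 2)) * hx

theorem list_prod_nice (c : ℂ →+* R) {x : R} (hx : x ^ 3 = 0) {F : ℂ → R} (hF : Nice c x F)
    {r : ℕ} {L : List ℂ} (hL : L.length = r + 2) (h1 : L.sum = 0) (h2 : (L.map (· ^ 2)).sum = 0) :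
    (L.map F).prod = F 0 ^ (r + 2) := by
  obtain ⟨α, β, γ, h⟩ := hF
  have ht : 2 * c (1 / 2) = 1 := by
    rw [← map_ofNat c 2, ← map_mul]; norm_num
  rw [list_prod c hx F α β γ (c (1 / 2)) ht h r L hL, h1, h2, h 0, map_zero]
  ring

end QCC
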