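import Pool.Agent.QCC.Wt

/-!
# The exact vanishing sum
-/

open Polynomial Finset

namespace QCC

variable {K : Type*} [Field K]

theorem pow_inj_of_not_root {q : K} (hq : q ≠ 0) (hr : ∀ m, 0 < m → q ^ m ≠ 1) {a b : ℕ}
    (h : q ^ a = q ^ b) : a = b := by
  by_contra hab
  rcases lt_or_gt_of_ne hab with h1 | h1
  · refine hr (b - a) (by omega) ?_
    have : q ^ b = q ^ a * q ^ (b - a) := by rw [← pow_add]; congr 1; omega
    rw [this] at h
    have h2 := mul_left_cancel₀ (pow_ne_zero a hq) (h.symm.trans (mul_one (q ^ a)).symm)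
    exact h2
  · refine hr (a - b) (by omega) ?_
    have : q ^ a = q ^ b * q ^ (a - b) := by rw [← pow_add]; congr 1; omega
    rw [this] at h
    exact mul_left_cancel₀ (pow_ne_zero b hq) (h.trans (mul_one (q ^ b)).symm)

/-- The summand of the deformed sum. -/
def term (q : K) (d e n k : ℕ) (u1 u2 v v' h : K) : K :=
  (1 - q * (q ^ d) ^ (2 * k)) * (q ^ (d * e)) ^ k *
    (gg q (q ^ d) n k 1 * gg q (q ^ d) n k u1 * gg q (q ^ d) n k u2 *
      (gg q (q ^ d) n k v * gg q (q ^ d) n k v') * (gg q (q ^ d) n k h * gg q (q ^ d) n k h) ^ (e - 1))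

theorem vanish {q : K} (hq : q ≠ 0) (hr : ∀ m, 0 < m → q ^ m ≠ 1) {d e l n N m : ℕ}
    (he : 1 ≤ e) (hl : 1 ≤ l) (hd : d = 2 * e + 3) (hn : n + 1 = d * l) (hN : N + 1 = (2 * e + 2) * l)
    (hm : m + 1 = (e + 2) * l) {u1 u2 v v' h : K} (hu1 : q * (q ^ d) ^ N * u1 = 1)
    (hu2 : u2 = q ^ (e + 1) * (q ^ d) ^ m) (hv : q * v * v' = (q ^ d) ^ l)
    (hh : q * h * h = (q ^ d) ^ l) :
    ∑ k ∈ range n, term q d e n k u1 u2 v v' h = 0 := by
  have hp : q ^ d ≠ 0 := pow_ne_zero _ hq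
  have hdl : d * l = (2 * e + 2) * l + l := by rw [hd]; ring
  have hel : (2 * e + 2) * l = (e + 2) * l + e * l := by ring
  have hel1 : e ≤ e * l := by nlinarith
  have hNn : N < n := by omega
  have hNl : N + l = n := by omega
  obtain ⟨Qv, hQv, hQv'⟩ := gg_pair q (q ^ d) hq hp n l hl v v' hv
  obtain ⟨Qh, hQh, hQh'⟩ := gg_pair q (q ^ d) hq hp n l hl h h hh
  have hu2ne : ∀ j, u2 ≠ (q ^ d) ^ j := by
    intro j hj
    rw [hu2, ← pow_mul, ← pow_mul, ← pow_add] at hj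
    have h1 := pow_inj_of_not_root hq hr hj
    have h2 : (e + 1) % d = 0 := by
      have : (e + 1 + d * m) % d = (d * j) % d := by rw [h1]
      simpa using this
    rw [Nat.mod_eq_of_lt (by omega)] at h2
    omega
  have hu2sq : q * u2 * u2 = (q ^ d) ^ (2 * m + 1) := by
    rw [hu2, ← pow_mul, ← pow_mul, hd]
    ring
  obtain ⟨Q2, hQ2, hQ2'⟩ := gg_single q (q ^ d) hq hp n m (by
    have : (e + 2) * l + (e + 2) * l = d * l + l := by rw [hd]; ring
    omega) u2 hu2sq hu2ne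
  have hu20 : u2 ≠ 0 := by
    rw [hu2]; exact mul_ne_zero (pow_ne_zero _ hq) (pow_ne_zero _ hp)
  -- terms beyond `N` vanish
  have hcut : ∑ k ∈ range n, term q d e n k u1 u2 v v' h =
      ∑ k ∈ range (N + 1), term q d e n k u1 u2 v v' h := by
    symm
    refine Finset.sum_subset (Finset.range_mono (by omega)) fun k hk hk' => ?_
    rw [Finset.mem_range] at hk hk'
    have : gg q (q ^ d) n k u1 = 0 := by
      rw [gg, Finset.prod_eq_zero (i := N) (Finset.mem_range.mpr (by omega)) (by rw [hu1, sub_self]),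
        zero_mul]
    rw [term, this]
    ring
  rw [hcut]
  set Q : K[X] := Q2 * Qv * Qh ^ (e - 1) with hQ
  have hQdeg : Q.natDegree < N := by
    have h1 : Q.natDegree ≤ m + (l - 1) + (e - 1) * (l - 1) := by
      refine (natDegree_mul_le).trans (add_le_add ((natDegree_mul_le).trans (add_le_add hQ2 hQv)) ?_)
      exact natDegree_pow_le_of_le (e - 1) hQh
    have h2 : (l - 1) + (e - 1) * (l - 1) = e * (l - 1) := by
      obtain ⟨e', rfl⟩ := Nat.exists_eq_add_of_le he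
      rw [Nat.add_sub_cancel_left]; ring
    have h3 : e * (l - 1) + e = e * l := by
      obtain ⟨l', rfl⟩ := Nat.exists_eq_add_of_le hl
      rw [Nat.add_sub_cancel_left]; ring
    omega
  have hnode : ∀ i j, i ≠ j → ww q (q ^ d) i ≠ ww q (q ^ d) j := by
    intro i j hij hw
    have hpi : (q ^ d) ^ i ≠ 0 := pow_ne_zero _ hp
    have hpj : (q ^ d) ^ j ≠ 0 := pow_ne_zero _ hp
    have h1 : ((q ^ d) ^ i - (q ^ d) ^ j) * (q * (q ^ d) ^ i * (q ^ d) ^ j - 1) = 0 := by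
      rw [ww, ww] at hw
      field_simp at hw
      linear_combination hw
    rcases mul_eq_zero.mp h1 with h2 | h2
    · rw [sub_eq_zero, ← pow_mul, ← pow_mul] at h2
      have h3 := pow_inj_of_not_root hq hr h2
      have hd0 : 0 < d := by omega
      exact hij (Nat.eq_of_mul_eq_mul_left hd0 h3)
    · rw [sub_eq_zero, ← pow_mul, ← pow_mul, ← pow_succ', ← pow_add] at h2
      exact hr _ (by omega) h2
  have hterm : ∀ k ∈ range (N + 1), term q d e n k u1 u2 v v' h =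
      wc q (q ^ d) n N u1 * (Q.eval (ww q (q ^ d) k) /
        ∏ j ∈ (range (N + 1)).erase k, (ww q (q ^ d) k - ww q (q ^ d) j)) := by
    intro k hk
    rw [Finset.mem_range] at hk
    have hE : ∏ j ∈ (range (N + 1)).erase k, (ww q (q ^ d) k - ww q (q ^ d) j) ≠ 0 :=
      Finset.prod_ne_zero_iff.mpr fun j hj =>
        sub_ne_zero.mpr (hnode k j (Finset.ne_of_mem_erase hj).symm)
    rw [mul_div_assoc', eq_div_iff hE]
    have w1 := weight_eq q (q ^ d) hq hp (n := n) hNn u1 hu1 (k := k) (by omega)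
    have w2 := hQ2' k (by omega)
    have w3 := hQv' k (by omega)
    have w4 := hQh' k (by omega)
    have hpk : (q ^ d) ^ k ≠ 0 := pow_ne_zero _ hp
    have hu2k : u2 ^ k ≠ 0 := pow_ne_zero _ hu20
    -- powers
    have e1 : gg q (q ^ d) n k u2 = (u2 ^ k)⁻¹ * (((q ^ d) ^ m) ^ k * Q2.eval (ww q (q ^ d) k)) := by
      rw [← w2, inv_mul_cancel_left₀ hu2k]
    have e2 : gg q (q ^ d) n k v * gg q (q ^ d) n k v' =
        ((q ^ d) ^ k)⁻¹ * (q ^ k * Qv.eval (ww q (q ^ d) k)) := by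
      rw [← w3, inv_mul_cancel_left₀ hpk]
    have e3 : gg q (q ^ d) n k h * gg q (q ^ d) n k h =
        ((q ^ d) ^ k)⁻¹ * (q ^ k * Qh.eval (ww q (q ^ d) k)) := by
      rw [← w4, inv_mul_cancel_left₀ hpk]
    rw [term, hQ, eval_mul, eval_mul, eval_pow, e1, e2, e3]
    have e4 : (1 - q * (q ^ d) ^ (2 * k)) * (q ^ (d * e)) ^ k *
        (gg q (q ^ d) n k 1 * gg q (q ^ d) n k u1 *
        ((u2 ^ k)⁻¹ * (((q ^ d) ^ m) ^ k * eval (ww q (q ^ d) k) Q2)) *
        (((q ^ d) ^ k)⁻¹ * (q ^ k * eval (ww q (q ^ d) k) Qv)) *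
        (((q ^ d) ^ k)⁻¹ * (q ^ k * eval (ww q (q ^ d) k) Qh)) ^ (e - 1)) *
        ∏ j ∈ (range (N + 1)).erase k, (ww q (q ^ d) k - ww q (q ^ d) j) =
        ((1 - q * (q ^ d) ^ (2 * k)) * (gg q (q ^ d) n k 1 * gg q (q ^ d) n k u1) *
        ∏ j ∈ (range (N + 1)).erase k, (ww q (q ^ d) k - ww q (q ^ d) j)) *
        ((q ^ (d * e)) ^ k * (u2 ^ k)⁻¹ * ((q ^ d) ^ m) ^ k *
          (((q ^ d) ^ k)⁻¹ * q ^ k) * (((q ^ d) ^ k)⁻¹ * q ^ k) ^ (e - 1)) *
        (eval (ww q (q ^ d) k) Q2 * eval (ww q (q ^ d) k) Qv * eval (ww q (q ^ d) k) Qh ^ (e - 1)) := by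
      rw [mul_pow, mul_pow, mul_pow]
      ring
    rw [e4, w1]
    have e5 : q ^ k * ((q ^ (d * e)) ^ k * (u2 ^ k)⁻¹ * ((q ^ d) ^ m) ^ k *
          (((q ^ d) ^ k)⁻¹ * q ^ k) * (((q ^ d) ^ k)⁻¹ * q ^ k) ^ (e - 1)) = 1 := by
      have : (((q ^ d) ^ k)⁻¹ * q ^ k) * (((q ^ d) ^ k)⁻¹ * q ^ k) ^ (e - 1) =
          (((q ^ d) ^ k)⁻¹ * q ^ k) ^ e := by
        rw [← pow_succ', Nat.sub_add_cancel he]
      rw [mul_assoc ((q ^ (d * e)) ^ k * (u2 ^ k)⁻¹ * ((q ^ d) ^ m) ^ k), this, hu2, mul_pow,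
        mul_pow, inv_pow, mul_inv]
      have h1 : (q ^ (d * e)) ^ k = ((q ^ d) ^ k) ^ e := by
        rw [← pow_mul, ← pow_mul, ← pow_mul]; congr 1; ring
      have h2 : (q ^ (e + 1)) ^ k = q ^ k * (q ^ k) ^ e := by
        rw [← pow_mul, ← pow_mul, ← pow_add]; congr 1; ring
      rw [h1, h2]
      have h3 : ((q ^ d) ^ k) ^ e ≠ 0 := pow_ne_zero _ hpk
      have h4 : ((q ^ d) ^ m) ^ k ≠ 0 := pow_ne_zero _ (pow_ne_zero _ hp)
      have h5 : q ^ k ≠ 0 := pow_ne_zero _ hq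
      have h6 : (q ^ k) ^ e ≠ 0 := pow_ne_zero _ h5
      field_simp
    rw [mul_assoc (wc q (q ^ d) n N u1), e5]
    ring
  rw [Finset.sum_congr rfl hterm, ← Finset.mul_sum]
  have hinj : Set.InjOn (ww q (q ^ d)) (range (N + 1) : Finset ℕ) := by
    intro i _ j _ hij
    by_contra hne
    exact hnode i j hne hij
  have hdeg : Q.degree < #(range (N + 1)) := by
    rw [Finset.card_range]
    refine lt_of_le_of_lt degree_le_natDegree ?_
    exact_mod_cast (by omega : Q.natDegree < N + 1)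
  have hsum := Lagrange.coeff_eq_sum hinj hdeg
  rw [Finset.card_range, Nat.add_sub_cancel, coeff_eq_zero_of_natDegree_lt hQdeg] at hsum
  rw [← hsum, mul_zero]

end QCC
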