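import Pool.Agent.QCC.Lag

/-!
# The Lagrange weights and the exact vanishing sum
-/

open Polynomial Finset

namespace QCC

variable {K : Type*} [Field K]

theorem prod_erase_split (f : ℕ → K) {k N : ℕ} (hk : k ≤ N) :
    ∏ j ∈ (range (N + 1)).erase k, f j = (∏ j ∈ range k, f j) * ∏ j ∈ Ico (k + 1) (N + 1), f j := by
  have hd : Disjoint (range k) (Ico (k + 1) (N + 1)) := by
    rw [Finset.disjoint_left]
    intro a ha hb
    rw [Finset.mem_range] at ha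
    rw [Finset.mem_Ico] at hb
    omega
  rw [← Finset.prod_union hd]
  refine Finset.prod_congr ?_ fun _ _ => rfl
  ext a
  simp only [Finset.mem_erase, Finset.mem_range, Finset.mem_union, Finset.mem_Ico]
  omega

theorem cc_sq (p : K) (k : ℕ) : (∏ j ∈ range k, p ^ j) * (∏ j ∈ range k, p ^ j) * p ^ k =
    (p ^ k) ^ k := by
  rw [Finset.prod_pow_eq_pow_sum, ← pow_add, ← two_mul, mul_comm 2, Finset.sum_range_id_mul_two,
    ← pow_add, ← pow_mul]
  congr 1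
  rcases k with _ | k
  · rfl
  · simp only [Nat.add_sub_cancel]
    ring

theorem prod_one_sub_reflect (p : K) (k : ℕ) :
    ∏ j ∈ range k, (p ^ k - p ^ j) =
      (-1) ^ k * (∏ j ∈ range k, p ^ j) * ∏ j ∈ range k, (1 - p ^ (j + 1)) := by
  rw [← Finset.prod_range_reflect (fun j => (1 : K) - p ^ (j + 1))]
  have : (-1 : K) ^ k = ∏ j ∈ range k, (-1) := by simp
  rw [this, ← Finset.prod_mul_distrib, ← Finset.prod_mul_distrib]
  refine Finset.prod_congr rfl fun j hj => ?_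
  rw [Finset.mem_range] at hj
  have h1 : p ^ k = p ^ j * p ^ (k - 1 - j + 1) := by rw [← pow_add]; congr 1; omega
  rw [h1]
  ring

theorem bracket_one (p : K) {k n : ℕ} (hk : k < n) :
    (∏ j ∈ range k, (p ^ k - p ^ j)) * ∏ j ∈ Ico (k + 1) n, (1 - p ^ j) =
      (-1) ^ k * (∏ j ∈ range k, p ^ j) * ∏ j ∈ Ico 1 n, (1 - p ^ j) := by
  rw [prod_one_sub_reflect, ← Finset.prod_Ico_consecutive (fun j => (1 : K) - p ^ j) (m := 1)
    (n := k + 1) (k := n) (by omega) (by omega), Finset.prod_Ico_eq_prod_range (fun j => (1 : K) - p ^ j) 1 (k + 1)]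
  simp only [Nat.add_sub_cancel, add_comm 1]
  ring

theorem bracket_two (p : K) {k N : ℕ} (hk : k ≤ N) :
    (∏ j ∈ Ico (k + 1) (N + 1), (p ^ k - p ^ j)) * ∏ j ∈ range k, (p ^ N - p ^ j) =
      (p ^ k) ^ (N - k) * ((-1) ^ k * (∏ j ∈ range k, p ^ j)) * ∏ i ∈ range N, (1 - p ^ (i + 1)) := by
  have h1 : ∏ j ∈ Ico (k + 1) (N + 1), (p ^ k - p ^ j) =
      (p ^ k) ^ (N - k) * ∏ i ∈ range (N - k), (1 - p ^ (i + 1)) := by
    rw [Finset.prod_Ico_eq_prod_range, show N + 1 - (k + 1) = N - k by omega]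
    have : (p ^ k) ^ (N - k) = ∏ i ∈ range (N - k), p ^ k := by simp
    rw [this, ← Finset.prod_mul_distrib]
    refine Finset.prod_congr rfl fun j _ => ?_
    rw [show k + 1 + j = k + (j + 1) by ring, pow_add]
    ring
  have h2 : ∏ j ∈ range k, (p ^ N - p ^ j) =
      ((-1) ^ k * (∏ j ∈ range k, p ^ j)) * ∏ j ∈ range k, (1 - p ^ (N - k + j + 1)) := by
    rw [← Finset.prod_range_reflect (fun j => (1 : K) - p ^ (N - k + j + 1))]
    have : (-1 : K) ^ k = ∏ j ∈ range k, (-1) := by simp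
    rw [this, ← Finset.prod_mul_distrib, ← Finset.prod_mul_distrib]
    refine Finset.prod_congr rfl fun j hj => ?_
    rw [Finset.mem_range] at hj
    have h1 : p ^ N = p ^ j * p ^ (N - k + (k - 1 - j) + 1) := by rw [← pow_add]; congr 1; omega
    rw [h1]
    ring
  have h3 : ∏ i ∈ range N, (1 - p ^ (i + 1)) = (∏ i ∈ range (N - k), (1 - p ^ (i + 1))) *
      ∏ j ∈ range k, (1 - p ^ (N - k + j + 1)) := by
    rw [← Finset.prod_range_add, Nat.sub_add_cancel hk]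
  rw [h1, h2, h3]
  ring

/-- The constant of the weights. -/
def wc (q p : K) (n N : ℕ) (u : K) : K :=
  (∏ j ∈ range (N + n), (1 - q * p ^ j)) * ((∏ j ∈ Ico 1 n, (1 - p ^ j)) *
    ∏ i ∈ range N, (1 - p ^ (i + 1))) * (-1) ^ N * u ^ (n - 1) * (q ^ N)⁻¹ *
    (∏ j ∈ range (N + 1), p ^ j)⁻¹

theorem weight_eq (q p : K) (hq : q ≠ 0) (hp : p ≠ 0) {n N : ℕ}
    (hN : N < n) (u : K) (hu : q * p ^ N * u = 1) {k : ℕ} (hk : k ≤ N) :
    (1 - q * p ^ (2 * k)) * (gg q p n k 1 * gg q p n k u) *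
      ∏ j ∈ (range (N + 1)).erase k, (ww q p k - ww q p j) = wc q p n N u * q ^ k := by
  have hu0 : u ≠ 0 := by rintro rfl; simp at hu
  have hpN : p ^ N ≠ 0 := pow_ne_zero _ hp
  have hqpN : q * p ^ N ≠ 0 := mul_ne_zero hq hpN
  have hpk : p ^ k ≠ 0 := pow_ne_zero _ hp
  -- the two factors
  have g1 : gg q p n k 1 = (∏ j ∈ range k, (1 - q * p ^ j)) * ∏ j ∈ Ico (k + 1) n, (1 - p ^ j) := by
    rw [gg]; simp only [mul_one]
  have g2 : gg q p n k u = ((p ^ N) ^ k)⁻¹ *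
      (∏ j ∈ range k, (p ^ N - p ^ j)) * (u ^ (n - 1 - k) *
      ∏ j ∈ Ico (k + 1) n, (1 - q * p ^ (N + j))) := by
    have e1 : ∏ j ∈ range k, (1 - q * p ^ j * u) = ((p ^ N) ^ k)⁻¹ *
        ∏ j ∈ range k, (p ^ N - p ^ j) := by
      rw [eq_inv_mul_iff_mul_eq₀ (pow_ne_zero _ hpN)]
      have : (p ^ N) ^ k = ∏ j ∈ range k, p ^ N := by simp
      rw [this, ← Finset.prod_mul_distrib]
      refine Finset.prod_congr rfl fun j _ => ?_
      have : p ^ N * (1 - q * p ^ j * u) = p ^ N - p ^ j * (q * p ^ N * u) := by ring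
      rw [this, hu, mul_one]
    have e2 : ∏ j ∈ Ico (k + 1) n, (u - p ^ j) = u ^ (n - 1 - k) *
        ∏ j ∈ Ico (k + 1) n, (1 - q * p ^ (N + j)) := by
      have : u ^ (n - 1 - k) = ∏ j ∈ Ico (k + 1) n, u := by
        rw [Finset.prod_const, Nat.card_Ico]
        congr 1
        omega
      rw [this, ← Finset.prod_mul_distrib]
      refine Finset.prod_congr rfl fun j _ => ?_
      rw [pow_add]
      have : u * (1 - q * (p ^ N * p ^ j)) = u - p ^ j * (q * p ^ N * u) := by ring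
      rw [this, hu, mul_one]
    rw [gg, e1, e2]
  -- the nodes
  have g3 : ∏ j ∈ (range (N + 1)).erase k, (ww q p k - ww q p j) =
      ((∏ j ∈ range k, (p ^ k - p ^ j)) * ∏ j ∈ Ico (k + 1) (N + 1), (p ^ k - p ^ j)) *
      ((∏ j ∈ (range (N + 1)).erase k, (q * p ^ (k + j) - 1)) *
      (∏ j ∈ (range (N + 1)).erase k, (q * p ^ (k + j)))⁻¹) := by
    rw [← prod_erase_split (fun j => p ^ k - p ^ j) hk, ← Finset.prod_inv_distrib,
      ← Finset.prod_mul_distrib, ← Finset.prod_mul_distrib]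
    refine Finset.prod_congr rfl fun j _ => ?_
    have hpj : p ^ j ≠ 0 := pow_ne_zero _ hp
    rw [ww, ww, pow_add]
    field_simp
    ring
  have hkm : k ∈ range (N + 1) := Finset.mem_range.mpr (by omega)
  have g4 : (1 - q * p ^ (2 * k)) * ∏ j ∈ (range (N + 1)).erase k, (q * p ^ (k + j) - 1) =
      (-1) ^ N * ∏ j ∈ range (N + 1), (1 - q * p ^ (k + j)) := by
    have h1 := Finset.mul_prod_erase (range (N + 1)) (fun j => q * p ^ (k + j) - 1) hkm
    have h2 : ∏ j ∈ range (N + 1), (q * p ^ (k + j) - 1) =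
        (-1) ^ (N + 1) * ∏ j ∈ range (N + 1), (1 - q * p ^ (k + j)) := by
      have : (-1 : K) ^ (N + 1) = ∏ j ∈ range (N + 1), (-1) := by simp
      rw [this, ← Finset.prod_mul_distrib]
      refine Finset.prod_congr rfl fun j _ => ?_
      ring
    rw [h2] at h1
    have h3 : (1 - q * p ^ (2 * k)) * ∏ j ∈ (range (N + 1)).erase k, (q * p ^ (k + j) - 1) =
        - ((q * p ^ (k + k) - 1) * ∏ j ∈ (range (N + 1)).erase k, (q * p ^ (k + j) - 1)) := by
      rw [two_mul]; ring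
    rw [h3, h1, pow_succ]
    ring
  have g5 : (q * p ^ k * p ^ k) * ∏ j ∈ (range (N + 1)).erase k, (q * p ^ (k + j)) =
      q ^ (N + 1) * (p ^ k) ^ (N + 1) * ∏ j ∈ range (N + 1), p ^ j := by
    have h1 := Finset.mul_prod_erase (range (N + 1)) (fun j => q * p ^ (k + j)) hkm
    rw [mul_assoc q, ← pow_add, h1]
    have : q ^ (N + 1) * (p ^ k) ^ (N + 1) = ∏ j ∈ range (N + 1), (q * p ^ k) := by
      simp [mul_pow]
    rw [this, ← Finset.prod_mul_distrib]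
    refine Finset.prod_congr rfl fun j _ => ?_
    rw [pow_add]; ring
  have g6 : (∏ j ∈ range k, (1 - q * p ^ j)) * (∏ j ∈ range (N + 1), (1 - q * p ^ (k + j))) *
      ∏ j ∈ Ico (k + 1) n, (1 - q * p ^ (N + j)) = ∏ j ∈ range (N + n), (1 - q * p ^ j) := by
    have h1 : ∏ j ∈ Ico (k + 1) n, (1 - q * p ^ (N + j)) =
        ∏ j ∈ Ico (k + (N + 1)) (N + n), (1 - q * p ^ j) := by
      rw [Finset.prod_Ico_add (fun j => (1 : K) - q * p ^ j) (k + 1) n N]
      congr 1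
      · congr 1 <;> omega
    rw [← Finset.prod_range_add (fun j => (1 : K) - q * p ^ j) k (N + 1), h1,
      Finset.range_eq_Ico, Finset.prod_Ico_consecutive _ (by omega) (by omega)]
    rw [Finset.range_eq_Ico]
  have g7 : (p ^ k) * (((∏ j ∈ range k, (p ^ k - p ^ j)) * ∏ j ∈ Ico (k + 1) n, (1 - p ^ j)) *
      ((∏ j ∈ Ico (k + 1) (N + 1), (p ^ k - p ^ j)) * ∏ j ∈ range k, (p ^ N - p ^ j))) =
      (p ^ k) ^ N * ((∏ j ∈ Ico 1 n, (1 - p ^ j)) * ∏ i ∈ range N, (1 - p ^ (i + 1))) := by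
    rw [bracket_one p (lt_of_le_of_lt hk hN), bracket_two p hk]
    have h1 := cc_sq p k
    have h2 : (p ^ k) ^ N = (p ^ k) ^ k * (p ^ k) ^ (N - k) := by
      rw [← pow_add]; congr 1; omega
    have h3 : ((-1 : K) ^ k) * (-1) ^ k = 1 := by rw [← mul_pow]; simp
    rw [h2, ← h1]
    linear_combination ((p ^ k) * (∏ j ∈ range k, p ^ j) * (∏ j ∈ range k, p ^ j) *
      (p ^ k) ^ (N - k) * ((∏ j ∈ Ico 1 n, (1 - p ^ j)) * ∏ i ∈ range N, (1 - p ^ (i + 1)))) * h3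
  have hE0 : ∏ j ∈ (range (N + 1)).erase k, (q * p ^ (k + j)) ≠ 0 :=
    Finset.prod_ne_zero_iff.mpr fun j _ => mul_ne_zero hq (pow_ne_zero _ hp)
  have hc0 : ∏ j ∈ range (N + 1), p ^ j ≠ 0 :=
    Finset.prod_ne_zero_iff.mpr fun j _ => pow_ne_zero _ hp
  have hun : u ^ (n - 1) = u ^ (n - 1 - k) * u ^ k := by rw [← pow_add]; congr 1; omega
  have huk : q ^ k * (p ^ N) ^ k * u ^ k = 1 := by rw [← mul_pow, ← mul_pow, hu, one_pow]
  rw [g1, g2, g3, wc, ← g6, hun]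
  have hEinv : (∏ j ∈ (range (N + 1)).erase k, (q * p ^ (k + j)))⁻¹ =
      q * p ^ k * p ^ k * (q ^ (N + 1) * (p ^ k) ^ (N + 1) * ∏ j ∈ range (N + 1), p ^ j)⁻¹ := by
    rw [← g5]
    field_simp
  rw [hEinv]
  generalize (∏ j ∈ (range (N + 1)).erase k, (q * p ^ (k + j) - 1)) = E1 at *
  generalize (∏ j ∈ range (N + 1), (1 - q * p ^ (k + j))) = E2 at *
  generalize (∏ j ∈ range k, (1 - q * p ^ j)) = E3 at *
  generalize (∏ j ∈ Ico (k + 1) n, (1 - q * p ^ (N + j))) = E4 at *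
  generalize (∏ j ∈ range k, (p ^ k - p ^ j)) = E5 at *
  generalize (∏ j ∈ Ico (k + 1) n, (1 - p ^ j)) = E6 at *
  generalize (∏ j ∈ Ico (k + 1) (N + 1), (p ^ k - p ^ j)) = E7 at *
  generalize (∏ j ∈ range k, (p ^ N - p ^ j)) = E8 at *
  generalize ((∏ j ∈ Ico 1 n, (1 - p ^ j)) * ∏ i ∈ range N, (1 - p ^ (i + 1))) = E9 at *
  generalize (∏ j ∈ range (N + 1), p ^ j) = E10 at *
  have hPN : (p ^ N) ^ k = (p ^ k) ^ N := by rw [← pow_mul, ← pow_mul, mul_comm]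
  rw [hPN] at huk ⊢
  generalize 1 - q * p ^ (2 * k) = E11 at *
  have hP : p ^ k ≠ 0 := hpk
  rw [pow_succ (p ^ k) N, pow_succ q N]
  generalize p ^ k = P at *
  have hPN0 : P ^ N ≠ 0 := pow_ne_zero _ hP
  generalize P ^ N = PN at *
  have hqN : q ^ N ≠ 0 := pow_ne_zero _ hq
  generalize q ^ N = QN at *
  generalize u ^ (n - 1 - k) = U1 at *
  have huk0 : u ^ k ≠ 0 := pow_ne_zero _ hu0
  have hqk0 : q ^ k ≠ 0 := pow_ne_zero _ hq
  generalize u ^ k = U2 at *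
  generalize q ^ k = Qk at *
  generalize (-1 : K) ^ N = S at *
  have key : E11 * (E3 * E6 * (PN⁻¹ * E8 * (U1 * E4))) *
      (E5 * E7 * (E1 * (q * P * P * (QN * q * (PN * P) * E10)⁻¹))) =
      ((E11 * E1) * (P * (E5 * E6 * (E7 * E8))) * E3 * U1 * E4) * (PN⁻¹ * PN⁻¹ * QN⁻¹ * E10⁻¹) := by
    field_simp
  rw [key, g4, g7]
  have hU2 : PN⁻¹ = Qk * U2 := by
    rw [inv_eq_iff_eq_inv]
    refine eq_inv_of_mul_eq_one_left ?_
    linear_combination huk
  calc S * E2 * (PN * E9) * E3 * U1 * E4 * (PN⁻¹ * PN⁻¹ * QN⁻¹ * E10⁻¹)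
      = S * E2 * E9 * E3 * U1 * E4 * (PN * PN⁻¹) * (PN⁻¹ * QN⁻¹ * E10⁻¹) := by ring
    _ = S * E2 * E9 * E3 * U1 * E4 * (PN⁻¹ * QN⁻¹ * E10⁻¹) := by
        rw [mul_inv_cancel₀ hPN0, mul_one]
    _ = _ := by rw [hU2]; ring

end QCC
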